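import Mathlib
import Pool.Agent.Lib.H8.NVL

set_option autoImplicit false

namespace Pool.Agent.Results.MP_606b74_al.Counter

theorem result : ∃ (G : Type) (_ : Group G) (_ : Finite G),
    commutator G = ⊤ ∧ Subgroup.center G = ⊥ ∧
      ∀ x : G, ({y : G | ∃ g : G, g * x * g⁻¹ = y}.ncard) ^ 2 < Nat.card G :=
  ⟨Pool.Agent.Lib.H8.NVL.G, inferInstance, inferInstance, Pool.Agent.Lib.H8.NVL.G_perfect,
    Pool.Agent.Lib.H8.NVL.center_bot, Pool.Agent.Lib.H8.NVL.small⟩

end Pool.Agent.Results.MP_606b74_al.Counter
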